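import Pool.Agent.H.MP_933a78_co.A

set_option autoImplicit false

namespace Pool.Agent.H.MP_095aaa_co
open Pool.Agent.H.MP_933a78_co

/-- a path with `m` vertices from `a` to `d`; vertex labels cover `C`, edge labels cover `D` -/
def P2 (k m a d : ℤ) (C D : ℤ → Prop) : Prop :=
  ∃ f : ℤ → ℤ, 1 ≤ m ∧ f 0 = a ∧ f (m - 1) = d ∧ (∀ z, C z → ∃ i, 0 ≤ i ∧ i < m ∧ f i = z) ∧
    (∀ z, D z → ∃ i, 0 ≤ i ∧ i + 1 < m ∧ k - f i - f (i + 1) = z)

theorem P2.mono {k m a d : ℤ} {C D C' D' : ℤ → Prop} (h : P2 k m a d C D) (hC : ∀ z, C' z → C z)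
    (hD : ∀ z, D' z → D z) : P2 k m a d C' D' := by
  obtain ⟨f, h1, h2, h3, h4, h5⟩ := h
  exact ⟨f, h1, h2, h3, fun z hz => h4 z (hC z hz), fun z hz => h5 z (hD z hz)⟩

theorem P2.glue {k m a b m' c d : ℤ} {C D C' D' : ℤ → Prop} (h : P2 k m a b C D)
    (h' : P2 k m' c d C' D') :
    P2 k (m + m') a d (fun z => C z ∨ C' z) (fun z => D z ∨ z = k - b - c ∨ D' z) := by
  obtain ⟨f, h1, h2, h3, h4, h5⟩ := h
  obtain ⟨g, g1, g2, g3, g4, g5⟩ := h'
  refine ⟨fun i => if i < m then f i else g (i - m), by omega, ?_, ?_, ?_, ?_⟩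
  · simp only [show (0 : ℤ) < m by omega, if_true, h2]
  · simp only [show ¬ (m + m' - 1 < m) by omega, if_false]
    rw [show m + m' - 1 - m = m' - 1 by ring, g3]
  · rintro z (hz | hz)
    · obtain ⟨i, i0, i1, e⟩ := h4 z hz
      exact ⟨i, i0, by omega, by simp only [i1, if_true, e]⟩
    · obtain ⟨i, i0, i1, e⟩ := g4 z hz
      refine ⟨i + m, by omega, by omega, ?_⟩
      simp only [show ¬ (i + m < m) by omega, if_false]
      rw [show i + m - m = i by ring, e]
  · rintro z (hz | hz | hz)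
    · obtain ⟨i, i0, i1, e⟩ := h5 z hz
      exact ⟨i, i0, by omega, by simp only [i1, show i < m by omega, if_true, e]⟩
    · refine ⟨m - 1, by omega, by omega, ?_⟩
      simp only [show m - 1 < m by omega, show ¬ (m - 1 + 1 < m) by omega, if_true, if_false]
      rw [show m - 1 + 1 - m = 0 by ring, h3, g2, hz]
    · obtain ⟨i, i0, i1, e⟩ := g5 z hz
      refine ⟨i + m, by omega, by omega, ?_⟩
      simp only [show ¬ (i + m < m) by omega, show ¬ (i + m + 1 < m) by omega, if_false]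
      rw [show i + m - m = i by ring, show i + m + 1 - m = i + 1 by ring, e]

theorem zig2 (k p o x y s : ℤ) (ho : o = 0 ∨ o = 1) (hs : s = 1 ∨ s = -1) (hp : 1 ≤ 2 * p + o) :
    P2 k (2 * p + o) x (if o = 1 then x + s * p else y + s * (p - 1)) (fun z =>
      (∃ j, 0 ≤ j ∧ j < p + o ∧ z = x + s * j) ∨ (∃ j, 0 ≤ j ∧ j < p ∧ z = y + s * j))
      (fun z => ∃ j, 0 ≤ j ∧ j < 2 * p + o - 1 ∧ z = k - x - y - s * j) := by
  refine ⟨fun i => if i % 2 = 0 then x + s * (i / 2) else y + s * (i / 2), hp, by simp, ?_, ?_, ?_⟩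
  · rcases ho with rfl | rfl
    · simp only [show ¬ ((2 * p + 0 - 1) % 2 = 0) by omega, if_false]
      rw [show (2 * p + 0 - 1) / 2 = p - 1 by omega]; simp
    · simp only [show ((2 * p + 1 - 1) % 2 = 0) by omega, if_true]
      rw [show (2 * p + 1 - 1) / 2 = p by omega]
  · rintro z (⟨j, j0, j1, e⟩ | ⟨j, j0, j1, e⟩)
    · refine ⟨2 * j, by omega, by omega, ?_⟩
      simp only [show ((2 * j) % 2 = 0) by omega, if_true]
      rw [show (2 * j) / 2 = j by omega, e]
    · refine ⟨2 * j + 1, by omega, by omega, ?_⟩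
      simp only [show ¬ ((2 * j + 1) % 2 = 0) by omega, if_false]
      rw [show (2 * j + 1) / 2 = j by omega, e]
  · rintro z ⟨j, j0, j1, e⟩
    refine ⟨j, j0, by omega, ?_⟩
    by_cases hj : j % 2 = 0
    · simp only [hj, show ¬ ((j + 1) % 2 = 0) by omega, if_true, if_false]
      rcases hs with rfl | rfl <;> omega
    · simp only [hj, show ((j + 1) % 2 = 0) by omega, if_true, if_false]
      rcases hs with rfl | rfl <;> omega

def vt (s : Seg) : List (Af × Af) :=
  if s.2.1 then [(s.x, ad s.p (ct s.o)), (s.y, s.p)]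
  else [(sb s.x (ad s.p (ct (s.o - 1))), ad s.p (ct s.o)), (sb s.y (sb s.p (ct 1)), s.p)]

def et (k : Af) (s : Seg) : Af × Af :=
  if s.2.1 then (sb (sb (sb k s.x) s.y) (sb s.len (ct 2)), sb s.len (ct 1))
  else (sb (sb k s.x) s.y, sb s.len (ct 1))

theorem seg_P2 (X Y : ℕ) (k : Af) (s : Seg) (h : s.ok = true) :
    P2 (ev X Y k) (ev X Y s.len) (ev X Y s.x) (ev X Y s.last) (Cov X Y (vt s))
      (Cov X Y [et k s]) := by
  have hp : 1 ≤ 2 * ev X Y s.p + s.o := by
    simp only [Seg.ok, Bool.and_eq_true, decide_eq_true_eq] at h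
    obtain ⟨⟨h1, h2⟩, h3⟩ := h
    have a1 : 0 ≤ s.p.2.1 * X := by positivity
    have a2 : 0 ≤ s.p.2.2 * Y := by positivity
    unfold ev; omega
  have hl : ev X Y s.len = 2 * ev X Y s.p + s.o := by simp [Seg.len]; ring
  have ho : s.o = 0 ∨ s.o = 1 := by unfold Seg.o; split_ifs <;> simp
  have key := zig2 (ev X Y k) (ev X Y s.p) s.o (ev X Y s.x) (ev X Y s.y) (if s.2.1 then 1 else -1) ho
    (by split_ifs <;> simp) hp
  rw [hl]
  have e : ev X Y s.last = (if s.o = 1 then ev X Y s.x + (if s.2.1 then 1 else -1) * ev X Y s.p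
      else ev X Y s.y + (if s.2.1 then 1 else -1) * (ev X Y s.p - 1)) := by
    unfold Seg.last Seg.o
    cases s.1 <;> cases s.2.1 <;> simp <;> ring
  rw [e]
  refine key.mono ?_ ?_
  · rintro z ⟨t, ht, h1, h2⟩
    unfold vt at ht
    cases hu : s.2.1
    · simp only [hu, Bool.false_eq_true, if_false, List.mem_cons, List.not_mem_nil, or_false] at ht ⊢
      rcases ht with rfl | rfl <;> simp only [ev_ad, ev_sb, ev_ct] at h1 h2
      · exact Or.inl ⟨ev X Y s.x - z, by omega, by omega, by omega⟩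
      · exact Or.inr ⟨ev X Y s.y - z, by omega, by omega, by omega⟩
    · simp only [hu, if_true, List.mem_cons, List.not_mem_nil, or_false] at ht ⊢
      rcases ht with rfl | rfl <;> simp only [ev_ad, ev_sb, ev_ct] at h1 h2
      · exact Or.inl ⟨z - ev X Y s.x, by omega, by omega, by omega⟩
      · exact Or.inr ⟨z - ev X Y s.y, by omega, by omega, by omega⟩
  · rintro z ⟨t, ht, h1, h2⟩
    rw [List.mem_singleton] at ht
    subst ht
    unfold et at h1 h2
    cases hu : s.2.1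
    · simp only [hu, Bool.false_eq_true, if_false, ev_ad, ev_sb, ev_ct, hl] at h1 h2 ⊢
      exact ⟨z - (ev X Y k - ev X Y s.x - ev X Y s.y), by omega, by omega, by omega⟩
    · simp only [hu, if_true, ev_ad, ev_sb, ev_ct, hl] at h1 h2 ⊢
      exact ⟨(ev X Y k - ev X Y s.x - ev X Y s.y) - z, by omega, by omega, by omega⟩

def vtL (s : Seg) : List Seg → List (Af × Af)
  | [] => vt s
  | t :: r => vt s ++ vtL t r
def etL (k : Af) (s : Seg) : List Seg → List (Af × Af)
  | [] => [et k s]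
  | t :: r => et k s :: (sb (sb k s.last) t.x, ct 1) :: etL k t r

theorem Cov.app {X Y : ℕ} {T T' : List (Af × Af)} {z : ℤ} (h : Cov X Y (T ++ T') z) :
    Cov X Y T z ∨ Cov X Y T' z := by
  obtain ⟨u, hu, h1⟩ := h
  rcases List.mem_append.1 hu with hu | hu
  · exact Or.inl ⟨u, hu, h1⟩
  · exact Or.inr ⟨u, hu, h1⟩

theorem list_P2 (X Y : ℕ) (k : Af) (r : List Seg) : ∀ s : Seg, s.ok = true → r.all Seg.ok = true →
    P2 (ev X Y k) (ev X Y (lenL s r)) (ev X Y s.x) (ev X Y (lastL s r)) (Cov X Y (vtL s r))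
      (Cov X Y (etL k s r)) := by
  induction r with
  | nil => intro s hs _; exact seg_P2 X Y k s hs
  | cons t r ih =>
    intro s hs hr
    simp only [List.all_cons, Bool.and_eq_true] at hr
    have := (seg_P2 X Y k s hs).glue (ih t hr.1 hr.2)
    simp only [lenL, lastL, vtL, etL, ev_ad]
    refine this.mono (fun z hz => Cov.app hz) ?_
    rintro z ⟨u, hu, h1, h2⟩
    simp only [List.mem_cons] at hu
    rcases hu with rfl | rfl | hu
    · exact Or.inl ⟨_, List.mem_singleton.2 rfl, h1, h2⟩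
    · simp only [ev_sb, ev_ct] at h1 h2
      exact Or.inr (Or.inl (by omega))
    · exact Or.inr (Or.inr ⟨u, hu, h1, h2⟩)

/-- a cycle: first segment and the others -/
abbrev Cy := Seg × List Seg
def Cy.ok (c : Cy) : Bool := c.1.ok && c.2.all Seg.ok
def Cy.len (c : Cy) : Af := lenL c.1 c.2
def Cy.vt (c : Cy) : List (Af × Af) := vtL c.1 c.2
def Cy.et (k : Af) (c : Cy) : List (Af × Af) :=
  (sb (sb k (lastL c.1 c.2)) c.1.x, ct 1) :: etL k c.1 c.2

def Cyc (k n : ℤ) (C D : ℤ → Prop) : Prop :=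
  ∃ f : ℤ → ℤ, (∀ z, C z → ∃ i, 0 ≤ i ∧ i < n ∧ f i = z) ∧
    (∀ z, D z → ∃ i, 0 ≤ i ∧ i < n ∧ k - f i - f ((i + 1) % n) = z)

theorem cy_cyc (X Y : ℕ) (k : Af) (c : Cy) (h : c.ok = true) :
    Cyc (ev X Y k) (ev X Y c.len) (Cov X Y c.vt) (Cov X Y (c.et k)) := by
  obtain ⟨s, r⟩ := c
  simp only [Cy.ok, Bool.and_eq_true] at h
  obtain ⟨f, f1, f2, f3, f4, f5⟩ := list_P2 X Y k r s h.1 h.2
  refine ⟨f, f4, ?_⟩
  rintro z ⟨u, hu, u1, u2⟩
  simp only [Cy.len]
  rcases List.mem_cons.1 hu with rfl | hu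
  · simp only [ev_sb, ev_ct] at u1 u2
    refine ⟨ev X Y (lenL s r) - 1, by omega, by omega, ?_⟩
    rw [sub_add_cancel, Int.emod_self, f2, f3]; omega
  · obtain ⟨i, i0, i1, e⟩ := f5 z ⟨u, hu, u1, u2⟩
    exact ⟨i, i0, by omega, by rw [Int.emod_eq_of_lt (by omega) i1]; exact e⟩

/-- the same cycle, indexed by `Fin n` -/
theorem Cyc.fin {k : ℤ} {n : ℕ} {C D : ℤ → Prop} (h : Cyc k n C D) :
    ∃ f g : Fin n → ℤ, (∀ z, C z → ∃ i, f i = z) ∧ (∀ z, D z → ∃ i, g i = z) ∧
      ∀ i j : Fin n, j.val = (i.val + 1) % n → f i + f j + g i = k := by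
  obtain ⟨f, h1, h2⟩ := h
  refine ⟨fun i => f i.val, fun i => k - f i.val - f ((i.val + 1) % n), ?_, ?_, ?_⟩
  · intro z hz
    obtain ⟨i, i0, i1, e⟩ := h1 z hz
    exact ⟨⟨i.toNat, by omega⟩, by simp only [Int.toNat_of_nonneg i0, e]⟩
  · intro z hz
    obtain ⟨i, i0, i1, e⟩ := h2 z hz
    exact ⟨⟨i.toNat, by omega⟩, by simp only [Int.toNat_of_nonneg i0, e]⟩
  · intro i j hj
    simp only [hj]; push_cast; ring

theorem surj_inj {ι : Type} [Fintype ι] (F : ι → ℤ) (lo : ℤ) (N : ℕ) (hc : Fintype.card ι = N)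
    (h : ∀ z, lo ≤ z → z < lo + N → ∃ a, F a = z) :
    Function.Injective F ∧ ∀ a, lo ≤ F a ∧ F a < lo + N := by
  classical
  have sub : Finset.Ico lo (lo + N) ⊆ Finset.univ.image F := by
    intro z hz
    rw [Finset.mem_Ico] at hz
    obtain ⟨a, ha⟩ := h z hz.1 hz.2
    exact Finset.mem_image.2 ⟨a, Finset.mem_univ _, ha⟩
  have c1 : (Finset.Ico lo (lo + N)).card = N := by simp
  have c2 : (Finset.univ : Finset ι).card = N := by simp [hc]
  have c3 := Finset.card_image_le (s := Finset.univ) (f := F)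
  have eq := Finset.eq_of_subset_of_card_le sub (by omega)
  refine ⟨?_, fun x => ?_⟩
  · have := (Finset.card_image_iff (s := Finset.univ) (f := F)).1 (by rw [← eq]; omega)
    intro a b hab
    exact this (by simp) (by simp) hab
  · have : F x ∈ Finset.Ico lo (lo + N) := by
      rw [eq]; exact Finset.mem_image_of_mem _ (Finset.mem_univ _)
    exact Finset.mem_Ico.1 this

theorem sum_inj {ι : Type} [Fintype ι] (F : ι → ℕ) (lo N : ℕ) (hc : Fintype.card ι = N)
    (hi : Function.Injective F) (h : ∀ a, lo ≤ F a ∧ F a < lo + N) :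
    2 * ∑ a, F a + N = N * (2 * lo + N) := by
  classical
  have sub : Finset.univ.image F ⊆ Finset.Ico lo (lo + N) := by
    intro z hz
    obtain ⟨a, -, rfl⟩ := Finset.mem_image.1 hz
    exact Finset.mem_Ico.2 (h a)
  have eq := Finset.eq_of_subset_of_card_le sub
    (by rw [Finset.card_image_of_injective _ hi]; simp [hc])
  have e1 : ∑ a, F a = ∑ z ∈ Finset.Ico lo (lo + N), z := by
    rw [← eq, Finset.sum_image (fun a _ b _ hab => hi hab)]
  rw [e1]
  clear e1 eq sub h hc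
  induction N with
  | zero => simp
  | succ n ih =>
    rw [show lo + (n + 1) = lo + n + 1 from rfl, Finset.sum_Ico_succ_top (by omega)]
    nlinarith

end Pool.Agent.H.MP_095aaa_co
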