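import Pool.Agent.H.MP_095aaa_co.A

set_option autoImplicit false

namespace Pool.Agent.H.MP_095aaa_co
open Pool.Agent.H.MP_933a78_co

abbrev Cert2 := Af × Cy × Cy

def Cert2.ok (c : Cert2) : Bool :=
  c.2.1.ok && c.2.2.ok &&
    chain (c.2.1.vt ++ c.2.2.vt) (ad (ad c.2.1.len c.2.2.len) (ct 1)) 40 (ct 1) &&
    chain (c.2.1.et c.1 ++ c.2.2.et c.1)
      (ad (ad (ad c.2.1.len c.2.2.len) (ad c.2.1.len c.2.2.len)) (ct 1)) 40
      (ad (ad c.2.1.len c.2.2.len) (ct 1))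

def Good2 (m n : ℕ) : Prop :=
  ∃ f : Fin m ⊕ Fin n → ℕ, ∃ g : Fin m ⊕ Fin n → ℕ, ∃ k : ℕ,
        Function.Injective f ∧
        Function.Injective g ∧
        (∀ v, 1 ≤ f v ∧ f v ≤ m + n) ∧
        (∀ e, m + n + 1 ≤ g e ∧ g e ≤ 2 * (m + n)) ∧
        (∀ i j : Fin m, j.val = (i.val + 1) % m →
            f (Sum.inl i) + f (Sum.inl j) + g (Sum.inl i) = k) ∧
        (∀ i j : Fin n, j.val = (i.val + 1) % n →
            f (Sum.inr i) + f (Sum.inr j) + g (Sum.inr i) = k)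

theorem Good2.symm {m n : ℕ} (h : Good2 m n) : Good2 n m := by
  obtain ⟨f, g, k, h1, h2, h3, h4, h5, h6⟩ := h
  refine ⟨f ∘ Sum.swap, g ∘ Sum.swap, k, h1.comp Sum.swap_leftInverse.injective,
    h2.comp Sum.swap_leftInverse.injective, fun v => ?_, fun v => ?_, h6, h5⟩
  · have := h3 v.swap; simp only [Function.comp]; omega
  · have := h4 v.swap; simp only [Function.comp]; omega

theorem cert2_good (c : Cert2) (h : c.ok = true) (X Y m n : ℕ) (hm : ev X Y c.2.1.len = m)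
    (hn : ev X Y c.2.2.len = n) : Good2 m n := by
  obtain ⟨k, c, d⟩ := c
  simp only [Cert2.ok, Bool.and_eq_true] at h
  obtain ⟨⟨⟨h1, h2⟩, h3⟩, h4⟩ := h
  have a := cy_cyc X Y k c h1
  have b := cy_cyc X Y k d h2
  dsimp only at hm hn
  rw [hm] at a; rw [hn] at b
  obtain ⟨f, g, f1, f2, f3⟩ := a.fin
  obtain ⟨f', g', g1, g2, g3⟩ := b.fin
  obtain ⟨i1, r1⟩ := surj_inj (Sum.elim f f') 1 (m + n) (by simp) (fun z z1 z2 => by
    rcases Cov.app (chain_cov X Y _ _ _ _ h3 z (by simpa using z1)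
      (by simp only [ev_ad, ev_ct, hm, hn]; omega)) with hz | hz
    · obtain ⟨i, e⟩ := f1 z hz; exact ⟨Sum.inl i, e⟩
    · obtain ⟨i, e⟩ := g1 z hz; exact ⟨Sum.inr i, e⟩)
  obtain ⟨i2, r2⟩ := surj_inj (Sum.elim g g') (m + n + 1) (m + n) (by simp) (fun z z1 z2 => by
    rcases Cov.app (chain_cov X Y _ _ _ _ h4 z (by simp only [ev_ad, ev_ct, hm, hn]; omega)
      (by simp only [ev_ad, ev_ct, hm, hn]; omega)) with hz | hz
    · obtain ⟨i, e⟩ := f2 z hz; exact ⟨Sum.inl i, e⟩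
    · obtain ⟨i, e⟩ := g2 z hz; exact ⟨Sum.inr i, e⟩)
  refine ⟨fun v => (Sum.elim f f' v).toNat, fun v => (Sum.elim g g' v).toNat, (ev X Y k).toNat,
    fun u v huv => i1 ?_, fun u v huv => i2 ?_, fun v => ?_, fun v => ?_, fun i j hj => ?_,
    fun i j hj => ?_⟩
  · have := r1 u; have := r1 v; dsimp only at huv; omega
  · have := r2 u; have := r2 v; dsimp only at huv; omega
  · have := r1 v; dsimp only; omega
  · have := r2 v; dsimp only; omega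
  · have := r1 (Sum.inl i); have := r1 (Sum.inl j); have := r2 (Sum.inl i); have := f3 i j hj
    simp only [Sum.elim_inl] at *; omega
  · have := r1 (Sum.inr i); have := r1 (Sum.inr j); have := r2 (Sum.inr i); have := g3 i j hj
    simp only [Sum.elim_inr] at *; omega

def cA0 : Cert2 := ((24,0,15),
  ((false,true,(1,0,1),(9,0,5),(1,0,0)),
   [(true,true,(0,0,0),(7,0,4),(0,0,0)),
    (false,true,(1,0,1),(2,0,1),(4,0,2)),
    (true,true,(0,0,0),(3,0,2),(5,0,3))]),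
  ((true,true,(1,0,1),(5,0,3),(8,0,4)),
   []))
def cA1 : Cert2 := ((29,0,15),
  ((true,true,(2,0,1),(1,0,0),(10,0,5)),
   [(false,true,(1,0,1),(5,0,2),(4,0,1)),
    (true,true,(0,0,0),(6,0,3),(12,0,6))]),
  ((true,true,(1,0,1),(7,0,3),(9,0,4)),
   []))
def cA2 : Cert2 := ((34,0,15),
  ((true,true,(2,0,1),(1,0,0),(12,0,5)),
   [(true,false,(2,0,1),(9,0,4),(11,0,5))]),
  ((false,true,(1,0,1),(4,0,1),(6,0,2)),
   [(true,true,(0,0,0),(5,0,2),(7,0,3))]))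
def cA3 : Cert2 := ((39,30,15),
  ((true,true,(3,3,1),(1,0,0),(12,6,5)),
   [(false,true,(1,0,1),(6,3,2),(5,3,1)),
    (true,true,(1,3,0),(7,3,3),(15,9,6))]),
  ((true,true,(1,0,1),(9,6,3),(11,6,4)),
   []))
def cA4 : Cert2 := ((44,30,15),
  ((true,true,(2,2,1),(2,0,0),(12,8,3)),
   [(false,false,(2,1,1),(7,4,2),(16,12,5)),
    (true,false,(0,1,0),(5,3,1),(7,5,2)),
    (true,false,(0,1,0),(8,6,2),(11,8,3)),
    (true,false,(1,1,0),(11,7,3),(14,11,4))]),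
  ((false,true,(1,0,1),(17,12,5),(9,6,2)),
   [(true,true,(0,0,0),(1,0,0),(0,0,0))]))
def cA5 : Cert2 := ((49,30,15),
  ((true,true,(4,3,1),(1,0,0),(14,6,5)),
   [(false,true,(1,0,1),(7,3,2),(6,3,1)),
    (true,true,(2,3,0),(8,3,3),(18,9,6))]),
  ((true,true,(1,0,1),(11,6,3),(13,6,4)),
   []))
def cA6 : Cert2 := ((54,30,15),
  ((true,true,(3,2,1),(13,8,3),(1,0,0)),
   [(false,false,(1,1,0),(5,4,1),(21,12,6)),
    (true,false,(0,1,0),(4,3,1),(7,5,2)),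
    (true,false,(0,1,0),(8,6,2),(12,8,3)),
    (true,false,(3,1,1),(12,7,3),(20,11,6))]),
  ((true,true,(1,0,1),(6,4,1),(17,10,4)),
   []))
def cA7 : Cert2 := ((59,30,15),
  ((true,true,(5,3,1),(1,0,0),(16,6,5)),
   [(false,true,(1,0,1),(8,3,2),(7,3,1)),
    (true,true,(3,3,0),(9,3,3),(21,9,6))]),
  ((true,true,(1,0,1),(13,6,3),(15,6,4)),
   []))
def cA8 : Cert2 := ((64,30,15),
  ((true,true,(3,2,1),(1,0,0),(17,8,3)),
   [(false,false,(1,1,0),(25,12,6),(6,4,1)),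
    (false,false,(4,1,1),(24,11,6),(14,7,3)),
    (true,true,(0,1,0),(5,2,1),(9,4,2)),
    (false,true,(2,1,0),(9,5,2),(15,7,3))]),
  ((true,true,(1,0,1),(7,4,1),(20,10,4)),
   []))
def cB0 : Cert2 := ((24,30,0),
  ((true,true,(0,1,0),(7,8,0),(1,0,0)),
   [(true,true,(0,0,0),(1,1,0),(8,9,0)),
    (false,true,(1,1,0),(6,7,0),(3,3,0))]),
  ((true,true,(0,1,0),(2,1,0),(10,11,0)),
   [(true,true,(0,1,0),(4,4,0),(3,2,0)),
    (true,true,(1,2,0),(8,9,0),(5,5,0))]))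
def cB1 : Cert2 := ((29,30,0),
  ((true,true,(1,1,0),(2,1,0),(11,11,0)),
   [(true,true,(0,1,0),(5,4,0),(4,2,0))]),
  ((true,true,(0,1,0),(8,8,0),(1,0,0)),
   [(true,true,(0,0,0),(1,1,0),(9,9,0)),
    (false,true,(2,2,0),(9,9,0),(6,5,0)),
    (true,true,(0,1,0),(4,3,0),(8,7,0))]))
def cB2 : Cert2 := ((29,0,15),
  ((false,true,(1,0,1),(2,0,1),(5,0,2)),
   [(true,true,(0,0,0),(3,0,2),(6,0,3)),
    (true,false,(1,0,1),(10,0,5),(7,0,4))]),
  ((false,true,(1,0,1),(11,0,5),(1,0,0)),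
   [(true,true,(0,0,0),(8,0,4),(0,0,0)),
    (true,true,(0,0,0),(6,0,3),(0,0,0)),
    (true,true,(0,0,0),(4,0,2),(0,0,0))]))
def cB3 : Cert2 := ((34,30,0),
  ((true,true,(1,2,0),(3,2,0),(13,10,0)),
   [(true,false,(1,0,0),(6,4,0),(9,8,0))]),
  ((false,true,(1,1,0),(1,0,0),(10,8,0)),
   [(true,true,(0,1,0),(2,1,0),(7,5,0)),
    (true,true,(0,1,0),(7,6,0),(7,4,0)),
    (true,true,(1,1,0),(11,9,0),(8,7,0))]))
def cB4 : Cert2 := ((39,30,0),
  ((false,true,(1,1,0),(1,0,0),(10,8,0)),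
   [(false,true,(1,0,0),(2,1,0),(11,9,0)),
    (false,true,(1,1,0),(3,1,0),(15,11,0))]),
  ((false,true,(1,1,0),(4,2,0),(6,4,0)),
   [(false,false,(3,2,0),(9,7,0),(14,11,0)),
    (true,true,(0,1,0),(5,3,0),(10,7,0))]))
def cB5 : Cert2 := ((44,30,0),
  ((false,true,(1,1,0),(1,0,0),(12,8,0)),
   [(false,true,(1,0,0),(2,1,0),(13,9,0)),
    (false,true,(1,1,0),(3,1,0),(17,11,0))]),
  ((true,true,(1,1,0),(4,2,0),(7,4,0)),
   [(false,false,(3,2,0),(16,11,0),(10,7,0)),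
    (false,true,(1,1,0),(11,7,0),(6,3,0))]))
def cB6 : Cert2 := ((34,0,15),
  ((true,true,(1,0,1),(9,0,3),(1,0,0)),
   [(true,true,(0,0,0),(2,0,1),(7,0,2)),
    (true,true,(0,0,1),(7,0,2),(14,0,5)),
    (true,false,(0,0,0),(6,0,2),(8,0,3)),
    (false,false,(1,0,0),(8,0,3),(11,0,4))]),
  ((true,true,(2,0,1),(3,0,1),(12,0,4)),
   []))
def cB7 : Cert2 := ((39,30,15),
  ((true,true,(0,1,0),(4,3,1),(16,11,6)),
   [(false,true,(1,0,1),(12,10,4),(5,4,1)),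
    (true,true,(2,1,1),(13,10,5),(7,6,2))]),
  ((true,true,(2,2,1),(1,0,0),(10,8,3)),
   [(true,true,(0,1,0),(6,4,2),(4,2,1)),
    (true,true,(0,1,0),(9,7,3),(7,5,2))]))
def cB8 : Cert2 := ((44,30,15),
  ((true,true,(1,1,1),(1,0,0),(12,8,3)),
   [(true,true,(1,1,0),(13,9,4),(11,7,3)),
    (false,false,(1,0,1),(9,6,3),(17,12,6))]),
  ((false,true,(1,1,0),(3,1,1),(8,5,2)),
   [(true,true,(2,2,1),(4,2,1),(15,10,4)),
    (false,true,(1,1,0),(10,6,3),(7,4,2))]))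
def cB9 : Cert2 := ((49,30,0),
  ((true,true,(1,1,0),(1,0,0),(15,8,0)),
   [(true,true,(2,1,0),(12,7,0),(6,3,0))]),
  ((true,true,(0,1,0),(3,1,0),(20,11,0)),
   [(false,true,(1,1,0),(8,4,0),(4,2,0)),
    (false,true,(3,2,0),(9,5,0),(16,9,0)),
    (false,true,(1,0,0),(5,3,0),(19,11,0))]))
def cB10 : Cert2 := ((49,30,15),
  ((true,true,(2,1,1),(1,0,0),(13,8,3)),
   [(true,true,(1,1,0),(8,5,2),(4,1,1)),
    (false,false,(1,0,1),(10,6,3),(19,12,6))]),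
  ((true,true,(2,2,1),(5,2,1),(17,10,4)),
   [(true,true,(0,1,0),(11,6,3),(8,4,2)),
    (true,true,(1,1,0),(15,9,4),(12,7,3))]))
def cB11 : Cert2 := ((54,30,15),
  ((false,true,(1,1,0),(4,2,1),(8,4,2)),
   [(true,true,(2,1,1),(5,3,1),(19,11,4)),
    (false,true,(1,0,1),(21,12,5),(11,6,2)),
    (true,true,(0,0,0),(10,6,2),(0,0,0))]),
  ((true,true,(2,2,1),(1,0,0),(15,8,3)),
   [(false,true,(2,1,0),(17,10,4),(12,6,3)),
    (false,true,(1,1,0),(9,5,2),(14,7,3))]))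
def cB12 : Cert2 := ((59,30,15),
  ((false,true,(3,1,1),(1,0,0),(16,8,3)),
   [(false,false,(1,1,0),(13,7,3),(9,5,2)),
    (false,true,(1,0,1),(23,12,5),(12,6,2))]),
  ((true,true,(1,1,0),(10,5,2),(4,1,1)),
   [(true,true,(3,2,1),(5,2,1),(20,10,4)),
    (true,false,(1,1,0),(15,8,3),(19,10,4))]))
def cB13 : Cert2 := ((64,30,15),
  ((false,true,(2,0,1),(1,0,0),(24,12,5)),
   [(false,true,(3,1,1),(5,2,1),(9,4,2)),
    (false,true,(1,1,0),(8,3,2),(23,11,5))]),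
  ((true,true,(1,2,0),(3,0,1),(18,8,4)),
   [(false,true,(4,1,1),(19,10,4),(13,6,3)),
    (false,true,(1,1,0),(12,5,3),(17,7,4))]))
def cC0 : Cert2 := ((34,0,30),
  ((true,true,(0,0,1),(9,0,8),(1,0,0)),
   [(true,true,(0,0,0),(1,0,1),(10,0,9)),
    (false,true,(1,0,1),(13,0,11),(2,0,1))]),
  ((false,true,(1,0,1),(5,0,4),(3,0,2)),
   [(false,true,(3,0,2),(10,0,9),(6,0,5)),
    (true,true,(0,0,1),(4,0,3),(9,0,7))]))
def cC1 : Cert2 := ((39,0,30),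
  ((true,true,(0,0,1),(4,0,2),(7,0,4)),
   [(true,true,(1,0,1),(5,0,3),(10,0,7))]),
  ((true,true,(0,0,1),(11,0,8),(1,0,0)),
   [(true,true,(0,0,0),(1,0,1),(12,0,9)),
    (false,true,(3,0,2),(12,0,9),(7,0,5)),
    (true,true,(1,0,1),(2,0,1),(15,0,11))]))
def cC2 : Cert2 := ((44,15,30),
  ((true,true,(0,0,1),(7,3,4),(10,4,6)),
   [(true,true,(1,0,1),(10,4,7),(14,5,9))]),
  ((true,true,(0,1,0),(9,3,6),(1,0,0)),
   [(true,true,(2,1,1),(1,1,0),(12,4,8)),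
    (true,true,(0,0,1),(8,3,5),(4,2,1)),
    (false,true,(3,1,2),(4,2,2),(15,5,10))]))
def cC3 : Cert2 := ((49,15,30),
  ((true,true,(0,0,1),(7,2,4),(4,1,2)),
   [(true,true,(1,0,1),(4,1,3),(19,6,11))]),
  ((true,true,(2,1,2),(1,0,0),(13,3,8)),
   [(false,true,(1,1,0),(15,4,10),(6,1,4)),
    (false,true,(3,1,1),(16,5,10),(9,2,6)),
    (false,true,(1,0,1),(8,2,5),(12,3,7))]))
def cC4 : Cert2 := ((54,15,30),
  ((true,true,(0,0,1),(4,2,1),(11,3,5)),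
   [(true,true,(1,0,1),(9,3,4),(12,4,6))]),
  ((false,true,(1,1,0),(11,3,6),(1,0,0)),
   [(false,false,(2,0,1),(14,4,8),(18,5,10)),
    (false,false,(2,1,1),(3,2,1),(16,5,9)),
    (true,false,(3,1,2),(8,3,4),(21,6,12))]))
def cC5 : Cert2 := ((49,0,30),
  ((false,true,(1,0,1),(1,0,0),(13,0,8)),
   [(false,true,(1,0,0),(2,0,1),(14,0,9)),
    (false,true,(1,0,1),(3,0,1),(19,0,11))]),
  ((true,true,(1,0,1),(4,0,2),(8,0,4)),
   [(true,false,(3,0,2),(18,0,11),(11,0,7)),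
    (true,true,(1,0,1),(6,0,3),(12,0,7))]))
def cC6 : Cert2 := ((54,0,30),
  ((false,true,(2,0,1),(3,0,1),(10,0,5)),
   [(true,true,(0,0,1),(12,0,6),(9,0,4)),
    (true,true,(0,0,0),(9,0,5),(13,0,7))]),
  ((false,true,(2,0,1),(15,0,8),(1,0,0)),
   [(false,true,(2,0,1),(17,0,9),(13,0,7)),
    (true,false,(3,0,2),(8,0,4),(21,0,12))]))
def cC7 : Cert2 := ((59,15,30),
  ((false,true,(2,0,1),(10,3,5),(4,2,1)),
   [(false,false,(1,0,1),(19,5,10),(15,4,8))]),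
  ((true,true,(0,1,0),(12,3,6),(1,0,0)),
   [(false,true,(3,1,1),(1,1,0),(16,4,8)),
    (true,false,(1,0,1),(14,4,7),(9,3,5)),
    (true,true,(3,1,2),(20,5,10),(6,2,2))]))
def cC8 : Cert2 := ((64,15,30),
  ((false,true,(1,0,1),(12,3,5),(5,2,1)),
   [(false,false,(2,0,1),(21,5,10),(16,4,8))]),
  ((true,true,(0,1,0),(13,3,6),(1,0,0)),
   [(true,true,(3,1,1),(1,1,0),(17,4,8)),
    (true,false,(1,0,1),(11,3,5),(14,4,7)),
    (false,true,(4,1,2),(6,2,2),(22,5,10))]))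
def cC9 : Cert2 := ((69,15,30),
  ((true,true,(1,0,1),(5,1,2),(10,2,4)),
   [(true,false,(1,0,1),(22,4,11),(15,3,7))]),
  ((false,true,(4,1,2),(17,3,8),(1,0,0)),
   [(true,true,(1,1,0),(13,2,6),(27,5,12)),
    (false,false,(1,0,1),(11,2,6),(16,3,8)),
    (true,true,(3,1,1),(23,4,11),(7,1,3)),
    (true,true,(0,0,0),(12,2,6),(0,0,0))]))
def certs : List Cert2 := [cA0, cA1, cA2, cA3, cA4, cA5, cA6, cA7, cA8, cB0, cB1, cB2, cB3, cB4, cB5, cB6, cB7, cB8, cB9, cB10, cB11, cB12, cB13, cC0, cC1, cC2, cC3, cC4, cC5, cC6, cC7, cC8, cC9]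

theorem certs_ok : certs.all Cert2.ok = true := by decide +kernel

def hit (fx fy : Bool) (a b c d m n : ℕ) : Bool := certs.any fun t =>
  decide (t.2.1.len = ((m : ℤ), if fx then (a : ℤ) else 0, if fy then (c : ℤ) else 0)) &&
  decide (t.2.2.len = ((n : ℤ), if fx then (b : ℤ) else 0, if fy then (d : ℤ) else 0))

theorem hit_good {fx fy : Bool} {a b c d m n : ℕ} (h : hit fx fy a b c d m n = true) (U V : ℕ)
    (hU : fx = false → U = 0) (hV : fy = false → V = 0) (M N : ℕ) (hM : M = m + a * U + c * V)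
    (hN : N = n + b * U + d * V) : Good2 M N := by
  simp only [hit, List.any_eq_true, Bool.and_eq_true, decide_eq_true_eq] at h
  obtain ⟨t, ht, e1, e2⟩ := h
  refine cert2_good t (List.all_eq_true.1 certs_ok t ht) U V _ _ ?_ ?_
  · rw [e1, hM]; cases fx <;> cases fy <;> simp_all [ev]
  · rw [e2, hN]; cases fx <;> cases fy <;> simp_all [ev]

theorem boxA : ∀ m < 23, m % 2 = 0 → 6 ≤ m → hit (decide (11 ≤ m)) true 12 0 4 2 m 3 = true := by
  decide +kernel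

set_option synthInstance.maxSize 2000 in
theorem boxB : ∀ m < 13, ∀ n < 14, (m % 2 = 0 ∧ n % 2 = 1 ∧ 4 ≤ m ∧ 8 ≤ m + n ∧ m < 2 * n ∧
    n < 2 * m ∧ 2 * n < m + 17 ∧ 2 * m < n + 12) →
    hit (decide (m + 5 ≤ 2 * n)) (decide (n + 6 ≤ 2 * m)) 4 8 4 2 m n = true := by
  decide +kernel

set_option synthInstance.maxSize 2000 in
theorem boxC : ∀ m < 8, ∀ n < 22, m % 2 = 0 → n % 2 = 1 → 4 ≤ m → 2 * m ≤ n → n < 2 * m + 10 →
    hit (decide (2 * m + 4 ≤ n)) true 0 6 4 8 m n = true := by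
  decide +kernel

theorem even_odd (m n : ℕ) (hm : m % 2 = 0) (hn : n % 2 = 1) (h4 : 4 ≤ m) (h3 : 3 ≤ n)
    (h8 : 8 ≤ m + n) : Good2 m n := by
  by_cases hA : 2 * n ≤ m
  · obtain ⟨U, hU⟩ : ∃ U, U = (m - 2 * n - 5) / 12 := ⟨_, rfl⟩
    obtain ⟨V, hV⟩ : ∃ V, V = (n - 3) / 2 := ⟨_, rfl⟩
    exact hit_good (boxA (m - 12 * U - 4 * V) (by omega) (by omega) (by omega)) U V
      (by simp only [decide_eq_false_iff_not]; omega) (by simp) _ _ (by omega) (by omega)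
  by_cases hB : n < 2 * m
  · obtain ⟨U, hU⟩ : ∃ U, U = (2 * n - m - 5) / 12 := ⟨_, rfl⟩
    obtain ⟨V, hV⟩ : ∃ V, V = (2 * m - n - 6) / 6 := ⟨_, rfl⟩
    obtain ⟨m', hm'⟩ : ∃ m', m = m' + 4 * U + 4 * V := ⟨m - 4 * U - 4 * V, by omega⟩
    obtain ⟨n', hn'⟩ : ∃ n', n = n' + 8 * U + 2 * V := ⟨n - 8 * U - 2 * V, by omega⟩
    have q4 : 4 ≤ m' := by omega
    exact hit_good (boxB m' (by omega) n' (by omega) ⟨by omega,
      by omega, by omega, by omega, by omega, by omega, by omega, by omega⟩) U V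
      (by simp only [decide_eq_false_iff_not]; omega)
      (by simp only [decide_eq_false_iff_not]; omega) _ _ (by omega) (by omega)
  · obtain ⟨U, hU⟩ : ∃ U, U = (n - 2 * m - 4) / 6 := ⟨_, rfl⟩
    obtain ⟨V, hV⟩ : ∃ V, V = (m - 4) / 4 := ⟨_, rfl⟩
    exact hit_good (boxC (m - 4 * V) (by omega) (n - 6 * U - 8 * V) (by omega) (by omega)
      (by omega) (by omega) (by omega) (by omega)) U V
      (by simp only [decide_eq_false_iff_not]; omega) (by simp) _ _ (by omega) (by omega)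

theorem good_of_odd (m n : ℕ) (hm : 3 ≤ m) (hn : 3 ≤ n) (h8 : 8 ≤ m + n) (h : (m + n) % 2 = 1) :
    Good2 m n := by
  by_cases h2 : m % 2 = 0
  · exact even_odd m n h2 (by omega) (by omega) hn h8
  · exact (even_odd n m (by omega) (by omega) (by omega) hm (by omega)).symm

theorem rot_val (n : ℕ) (a : Fin n) : (finRotate n a).val = (a.val + 1) % n := by
  cases n with
  | zero => exact a.elim0
  | succ m => rw [finRotate_apply, Fin.val_add]; simp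

theorem odd_of_good (m n : ℕ) (hm : 3 ≤ m) (h : Good2 m n) : (m + n) % 2 = 1 := by
  obtain ⟨f, g, k, h1, h2, h3, h4, h5, h6⟩ := h
  have s1 := sum_inj f 1 (m + n) (by simp) h1 (fun a => by have := h3 a; omega)
  have s2 := sum_inj g (m + n + 1) (m + n) (by simp) h2 (fun a => by have := h4 a; omega)
  have e1 : ∑ i : Fin m, (f (Sum.inl i) + f (Sum.inl (finRotate m i)) + g (Sum.inl i)) = m * k := by
    rw [Finset.sum_congr rfl (fun i _ => h5 i _ (rot_val m i))]; simp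
  have e2 : ∑ i : Fin n, (f (Sum.inr i) + f (Sum.inr (finRotate n i)) + g (Sum.inr i)) = n * k := by
    rw [Finset.sum_congr rfl (fun i _ => h6 i _ (rot_val n i))]; simp
  rw [Finset.sum_add_distrib, Finset.sum_add_distrib,
    Equiv.sum_comp (finRotate m) (fun i => f (Sum.inl i))] at e1
  rw [Finset.sum_add_distrib, Finset.sum_add_distrib,
    Equiv.sum_comp (finRotate n) (fun i => f (Sum.inr i))] at e2
  rw [Fintype.sum_sum_type] at s1 s2
  have key : (m + n) * (2 * k + 3) = (m + n) * (5 * (m + n) + 6) := by nlinarith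
  have := Nat.eq_of_mul_eq_mul_left (by omega) key
  omega

end Pool.Agent.H.MP_095aaa_co
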